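import Mathlib

set_option autoImplicit false

/-!
# Additive gaps between the fully active and the usual cop number

For all `0 < k < c` there is a finite connected graph `G` with `cop G = c` and `acop G = c + k`.

The graphs: take the incidence graph of a `c`-net of prime order `p ≥ c`, completed by a line at
infinity carrying one point for each parallel class (here both cop numbers equal `c`).  Now add
twins of vertices one by one.  This never changes the usual cop number, it raises the fully active
cop number by at most one in each step (one additional cop guards the new vertex by oscillating on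
an edge at it), and after all vertices have many twins the fully active cop number is at
least `2c - 1` (by parity, among `2c-2` cops only `c-1` are of use).
-/

namespace Pool.Agent.Results.MP_671a46_co.AllGaps

variable {V : Type}

/-- A legal move from `u` to `v`: in the fully active game (`active = true`) a move must go to an
adjacent vertex; in the usual game (`active = false`) one may also stay put. -/
def Step (G : SimpleGraph V) (active : Bool) (u v : V) : Prop :=
  G.Adj u v ∨ (active = false ∧ u = v)

/-- The robber's positions `[r 0, ..., r (t-1)]` in his first `t` rounds. -/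
def hist (r : ℕ → V) (t : ℕ) : List V := (List.range t).map r

/-- `n` cops have a winning strategy on `G`.  A strategy `σ` assigns to the list of the robber's
positions so far the positions of the `n` cops: `σ []` is the initial placement; then the robber
chooses `r 0`, the cops move to `σ [r 0]`, the robber moves to `r 1`, the cops move to
`σ [r 0, r 1]`, and so on.  Against every legal sequence `r` of robber positions all moves of the
cops must be legal, and at some moment some cop is on the robber's vertex (either right after a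
move, or the initial choice, of the robber, or right after a move of the cops). -/
def CopsWin (G : SimpleGraph V) (active : Bool) (n : ℕ) : Prop :=
  ∃ σ : List V → Fin n → V, ∀ r : ℕ → V, (∀ t, Step G active (r t) (r (t + 1))) →
    (∀ t i, Step G active (σ (hist r t) i) (σ (hist r (t + 1)) i)) ∧
    ∃ t i, σ (hist r t) i = r t ∨ σ (hist r (t + 1)) i = r t

/-- The usual cop number: least number of cops having a winning strategy in the usual game. -/
noncomputable def cop (G : SimpleGraph V) : ℕ := sInf {n | CopsWin G false n}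

/-- The fully active cop number: least number of cops having a winning strategy in the fully
active game. -/
noncomputable def acop (G : SimpleGraph V) : ℕ := sInf {n | CopsWin G true n}

/-! ### General lemmas on the game -/

lemma hist_zero (r : ℕ → V) : hist r 0 = [] := rfl

lemma hist_succ (r : ℕ → V) (t : ℕ) : hist r (t + 1) = hist r t ++ [r t] := by
  simp [hist, List.range_succ]

lemma hist_length (r : ℕ → V) (t : ℕ) : (hist r t).length = t := by
  simp [hist]

lemma hist_map {W : Type} (f : V → W) (r : ℕ → V) (t : ℕ) :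
    (hist r t).map f = hist (f ∘ r) t := by
  simp [hist]

/-- The cops (to move, in position `c`, robber at `r`) can capture within `k` rounds. -/
def WinIn (G : SimpleGraph V) (a : Bool) (n : ℕ) : ℕ → (Fin n → V) → V → Prop
  | 0, c, r => ∃ i, c i = r
  | k + 1, c, r => (∃ i, c i = r) ∨ ∃ c' : Fin n → V, (∀ i, Step G a (c i) (c' i)) ∧
      ((∃ i, c' i = r) ∨ ∀ r', Step G a r r' → WinIn G a n k c' r')

open Classical in
/-- The cops' answer. -/
noncomputable def answer (G : SimpleGraph V) (a : Bool) (n : ℕ) (nb : V → V) (k : ℕ)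
    (c : Fin n → V) (r : V) : Fin n → V :=
  if h : ∃ c' : Fin n → V, (∀ i, Step G a (c i) (c' i)) ∧
      ((∃ i, c' i = r) ∨ ∀ r', Step G a r r' → WinIn G a n (k - 1) c' r') then h.choose
  else fun i => nb (c i)

lemma answer_step (G : SimpleGraph V) (a : Bool) (n : ℕ) (nb : V → V)
    (hnb : ∀ x, G.Adj x (nb x)) (k : ℕ) (c : Fin n → V) (r : V) (i : Fin n) :
    Step G a (c i) (answer G a n nb k c r i) := by
  unfold answer
  split_ifs with h
  · exact h.choose_spec.1 i
  · exact Or.inl (hnb _)

/-- Memory update. -/
noncomputable def upd (G : SimpleGraph V) (a : Bool) (n : ℕ) (nb : V → V)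
    (s : ℕ × (Fin n → V)) (r : V) : ℕ × (Fin n → V) :=
  (s.1 - 1, answer G a n nb s.1 s.2 r)

lemma copsWin_of_winIn (G : SimpleGraph V) (a : Bool) (n : ℕ) (hdeg : ∀ x, ∃ y, G.Adj x y)
    (k : ℕ) (c₀ : Fin n → V) (h : ∀ r, WinIn G a n k c₀ r) : CopsWin G a n := by
  classical
  choose nb hnb using hdeg
  refine ⟨fun l => (l.foldl (upd G a n nb) (k, c₀)).2, fun r hr => ⟨?_, ?_⟩⟩
  · intro t i
    rw [hist_succ]
    simp only [List.foldl_append]
    exact answer_step G a n nb hnb _ _ _ _
  · by_contra hcon
    push Not at hcon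
    have key : ∀ t, t ≤ k →
        ((hist r t).foldl (upd G a n nb) (k, c₀)).1 = k - t ∧
        WinIn G a n (k - t) ((hist r t).foldl (upd G a n nb) (k, c₀)).2 (r t) := by
      intro t
      induction t with
      | zero =>
        intro _
        refine ⟨by simp [hist_zero], ?_⟩
        simpa [hist_zero] using h (r 0)
      | succ t ih =>
        intro ht
        obtain ⟨h1, h2⟩ := ih (by omega)
        obtain ⟨hc1, hc2⟩ : (∀ i, ((hist r t).foldl (upd G a n nb) (k, c₀)).2 i ≠ r t) ∧
            (∀ i, ((hist r (t + 1)).foldl (upd G a n nb) (k, c₀)).2 i ≠ r t) :=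
          ⟨fun i => (hcon t i).1, fun i => (hcon t i).2⟩
        set s := (hist r t).foldl (upd G a n nb) (k, c₀) with hs
        have hs' : (hist r (t + 1)).foldl (upd G a n nb) (k, c₀) = upd G a n nb s (r t) := by
          rw [hist_succ, List.foldl_append, ← hs]; rfl
        rw [hs'] at hc2 ⊢
        obtain ⟨j, hj⟩ : ∃ j, k - t = j + 1 := ⟨k - t - 1, by omega⟩
        have hj2 : k - (t + 1) = j := by omega
        rw [hj] at h1 h2
        refine ⟨by simp [upd, h1, hj2], ?_⟩
        rw [hj2]
        rcases h2 with ⟨i, hi⟩ | h2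
        · exact absurd hi (hc1 i)
        · have h3 : ∃ c' : Fin n → V, (∀ i, Step G a (s.2 i) (c' i)) ∧
              ((∃ i, c' i = r t) ∨ ∀ r', Step G a (r t) r' → WinIn G a n (s.1 - 1) c' r') := by
            rw [h1]; exact h2
          have h4 : (upd G a n nb s (r t)).2 = h3.choose := by
            simp only [upd, answer]
            rw [dif_pos h3]
          rw [h4] at hc2 ⊢
          rcases h3.choose_spec.2 with ⟨i, hi⟩ | h5
          · exact absurd hi (hc2 i)
          · have h6 := h5 (r (t + 1)) (hr t)
            have e : s.1 - 1 = j := by omega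
            generalize h3.choose = c'' at h6 ⊢
            rwa [e] at h6
    obtain ⟨i, hi⟩ := by simpa [WinIn] using (key k le_rfl).2
    exact (hcon k i).1 hi

open Classical in
/-- The robber's answer. -/
noncomputable def flee (G : SimpleGraph V) (a : Bool) (n : ℕ) (Inv : (Fin n → V) → V → Prop)
    (hs : ∀ r, ∃ r', Step G a r r') (r : V) (c' : Fin n → V) : V :=
  if h : ∃ r', Step G a r r' ∧ Inv c' r' then h.choose else (hs r).choose

lemma flee_step (G : SimpleGraph V) (a : Bool) (n : ℕ) (Inv : (Fin n → V) → V → Prop)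
    (hs : ∀ r, ∃ r', Step G a r r') (r : V) (c' : Fin n → V) :
    Step G a r (flee G a n Inv hs r c') := by
  unfold flee
  split_ifs with h
  · exact h.choose_spec.1
  · exact (hs r).choose_spec

/-- The robber's play: history and current position. -/
noncomputable def run (G : SimpleGraph V) (a : Bool) (n : ℕ) (Inv : (Fin n → V) → V → Prop)
    (hs : ∀ r, ∃ r', Step G a r r') (σ : List V → Fin n → V) (r₀ : V) : ℕ → List V × V
  | 0 => ([], r₀)
  | t + 1 =>
    let s := run G a n Inv hs σ r₀ t
    (s.1 ++ [s.2], flee G a n Inv hs s.2 (σ (s.1 ++ [s.2])))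

lemma not_copsWin_of_inv (G : SimpleGraph V) (a : Bool) (n : ℕ)
    (Inv : (Fin n → V) → V → Prop)
    (hstart : ∀ c : Fin n → V, ∃ r, Inv c r)
    (hnocap : ∀ c r, Inv c r → ∀ i, c i ≠ r)
    (hstep : ∀ c c' r, Inv c r → (∀ i, Step G a (c i) (c' i)) →
      (∀ i, c' i ≠ r) ∧ ∃ r', Step G a r r' ∧ Inv c' r')
    (hs : ∀ r, ∃ r', Step G a r r') : ¬ CopsWin G a n := by
  rintro ⟨σ, hσ⟩
  obtain ⟨r₀, hr₀⟩ := hstart (σ [])
  set R := run G a n Inv hs σ r₀ with hR
  have hhist : ∀ t, (R t).1 = hist (fun t => (R t).2) t := by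
    intro t
    induction t with
    | zero => rfl
    | succ t ih =>
      rw [hist_succ, ← ih]
      rfl
  obtain ⟨hleg, t, i, ht⟩ := hσ (fun t => (R t).2) (fun t => flee_step G a n Inv hs _ _)
  have hinv : ∀ t, Inv (σ (hist (fun t => (R t).2) t)) (R t).2 := by
    intro t
    induction t with
    | zero => exact hr₀
    | succ t ih =>
      have h1 := hstep _ _ _ ih (hleg t)
      have h2 : (R (t + 1)).2 = flee G a n Inv hs (R t).2
          (σ (hist (fun t => (R t).2) (t + 1))) := by
        rw [hist_succ, ← hhist t]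
        rfl
      rw [h2]
      unfold flee
      rw [dif_pos h1.2]
      exact h1.2.choose_spec.2
  rcases ht with ht | ht
  · exact hnocap _ _ (hinv t) i ht
  · exact (hstep _ _ _ (hinv t) (hleg t)).1 i ht

/-- **Guarding lemma.** Let `X' = X ∪ {v}`, both mapped to a graph `H`, such that the map of `X'`
factors through a retraction onto `X`. One additional cop guards `v`. -/
lemma guard {W X X' : Type} (H : SimpleGraph W) (π : X → W) (π' : X' → W) (ι : X → X')
    (ρ : X' → X) (v u : X') (hι : ∀ x, π' (ι x) = π x) (hρ : ∀ x, π (ρ x) = π' x)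
    (hρι : ∀ x, x ≠ v → ι (ρ x) = x) (huv : H.Adj (π' u) (π' v)) (n : ℕ)
    (h : CopsWin (H.comap π) true n) : CopsWin (H.comap π') true (n + 1) := by
  obtain ⟨σ, hσ⟩ := h
  refine ⟨fun l => Fin.snoc (fun i => ι (σ (l.map ρ) i)) (if Even l.length then v else u),
    fun r hr => ?_⟩
  have hr' : ∀ t, Step (H.comap π) true ((ρ ∘ r) t) ((ρ ∘ r) (t + 1)) := by
    intro t
    rcases hr t with h | h
    · left
      simpa [hρ] using h
    · simp at h
  obtain ⟨h1, h2⟩ := hσ (ρ ∘ r) hr'
  refine ⟨?_, ?_⟩
  · intro t i
    refine Fin.lastCases ?_ (fun i => ?_) i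
    · simp only [Fin.snoc_last, hist_length]
      left
      by_cases ht : Even t
      · have : ¬ Even (t + 1) := by simpa [Nat.even_add_one] using ht
        simp only [if_pos ht, if_neg this]
        simpa using huv.symm
      · have : Even (t + 1) := by simpa [Nat.even_add_one] using ht
        simp only [if_neg ht, if_pos this]
        simpa using huv
    · simp only [Fin.snoc_castSucc, hist_map]
      rcases h1 t i with h | h
      · left
        simpa [hι] using h
      · simp at h
  · by_cases hv : ∃ t, r t = v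
    · obtain ⟨t, ht⟩ := hv
      refine ⟨t, Fin.last n, ?_⟩
      simp only [Fin.snoc_last, hist_length]
      by_cases he : Even t
      · left; simp [he, ht]
      · right
        have : Even (t + 1) := by simpa [Nat.even_add_one] using he
        simp [this, ht]
    · push Not at hv
      obtain ⟨t, i, hti⟩ := h2
      refine ⟨t, Fin.castSucc i, ?_⟩
      simp only [Fin.snoc_castSucc, hist_map]
      rcases hti with hti | hti
      · left
        rw [hti]
        exact hρι _ (hv t)
      · right
        rw [hti]
        exact hρι _ (hv t)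

/-! ### The base graph -/

section base

variable (c p : ℕ)

/-- Points: affine points and the points at infinity. -/
abbrev Pt := (ZMod p × ZMod p) ⊕ Fin c

/-- Lines: affine lines given by slope and intercept, and the line at infinity. -/
abbrev Ln := (Fin c × ZMod p) ⊕ Unit

/-- Incidence. -/
def Inc : Pt c p → Ln c p → Prop
  | Sum.inl q, Sum.inl l => q.2 = (l.1.1 : ZMod p) * q.1 + l.2
  | Sum.inl _, Sum.inr _ => False
  | Sum.inr j, Sum.inl l => j = l.1
  | Sum.inr _, Sum.inr _ => True

/-- Vertices of the incidence graph. -/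
abbrev W := Pt c p ⊕ Ln c p

/-- The incidence graph. -/
def base : SimpleGraph (W c p) where
  Adj
    | Sum.inl P, Sum.inr l => Inc c p P l
    | Sum.inr l, Sum.inl P => Inc c p P l
    | _, _ => False
  symm := ⟨by rintro (P | l) (Q | m) h <;> simpa using h⟩
  loopless := ⟨by rintro (P | l) h <;> simp at h⟩

variable {c p}

@[simp] lemma base_lr (P : Pt c p) (l : Ln c p) : (base c p).Adj (Sum.inl P) (Sum.inr l) ↔ Inc c p P l := Iff.rfl
@[simp] lemma base_rl (P : Pt c p) (l : Ln c p) : (base c p).Adj (Sum.inr l) (Sum.inl P) ↔ Inc c p P l := Iff.rfl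
@[simp] lemma base_ll (P Q : Pt c p) : ¬ (base c p).Adj (Sum.inl P) (Sum.inl Q) := fun h => h
@[simp] lemma base_rr (l m : Ln c p) : ¬ (base c p).Adj (Sum.inr l) (Sum.inr m) := fun h => h

lemma cast_inj [Fact p.Prime] (hcp : c ≤ p) {i j : Fin c}
    (h : ((i.1 : ℕ) : ZMod p) = ((j.1 : ℕ) : ZMod p)) : i = j := by
  have hi := i.2
  have hj := j.2
  have h2 := congrArg ZMod.val h
  rw [ZMod.val_natCast_of_lt (by omega), ZMod.val_natCast_of_lt (by omega)] at h2
  exact Fin.ext h2

/-- Two points lie on at most one common line. -/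
lemma inc_uniq [Fact p.Prime] (hcp : c ≤ p) {P Q : Pt c p} {l m : Ln c p} (h1 : Inc c p P l)
    (h2 : Inc c p Q l) (h3 : Inc c p P m) (h4 : Inc c p Q m) : P = Q ∨ l = m := by
  rcases P with ⟨x, y⟩ | i <;> rcases Q with ⟨x', y'⟩ | j <;> rcases l with ⟨s, b⟩ | l <;>
    rcases m with ⟨s', b'⟩ | m <;> simp only [Inc] at h1 h2 h3 h4 <;>
    try (first | exact Or.inr rfl | (left; simp_all; done) | (right; simp_all; done))
  · by_cases hs : s = s'
    · right
      subst hs
      have : b = b' := by
        have := h1.symm.trans h3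
        exact add_left_cancel this
      rw [this]
    · left
      have hs' : ((s.1 : ℕ) : ZMod p) - ((s'.1 : ℕ) : ZMod p) ≠ 0 :=
        fun h => hs (cast_inj hcp (sub_eq_zero.mp h))
      have hx : x = x' := by
        have e1 : (((s.1 : ℕ) : ZMod p) - ((s'.1 : ℕ) : ZMod p)) * (x - x') = 0 := by
          linear_combination h3 - h1 + h2 - h4
        rcases mul_eq_zero.mp e1 with h | h
        · exact absurd h hs'
        · exact sub_eq_zero.mp h
      subst hx
      rw [h1, h2]

/-- Which side of the bipartition. -/
def side (w : W c p) : Bool := w.isLeft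

lemma side_adj {a b : W c p} (h : (base c p).Adj a b) : side b = !side a := by
  rcases a with P | l <;> rcases b with Q | m <;> simp_all [side]

/-- Two vertices have at most one common neighbour. -/
lemma base_uniq [Fact p.Prime] (hcp : c ≤ p) {a b u v : W c p} (hab : a ≠ b)
    (h1 : (base c p).Adj a u) (h2 : (base c p).Adj b u) (h3 : (base c p).Adj a v)
    (h4 : (base c p).Adj b v) : u = v := by
  rcases a with P | l <;> rcases b with Q | m <;> rcases u with R | s <;> rcases v with S | t <;>
    simp only [base_lr, base_rl, base_ll, base_rr] at h1 h2 h3 h4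
  · rcases inc_uniq hcp h1 h2 h3 h4 with h | h
    · exact absurd (by rw [h]) hab
    · rw [h]
  · rcases inc_uniq hcp h1 h3 h2 h4 with h | h
    · rw [h]
    · exact absurd (by rw [h]) hab

/-- `c` distinct neighbours of each vertex. -/
def nb : W c p → Fin c → W c p
  | Sum.inl (Sum.inl q), i => Sum.inr (Sum.inl (i, q.2 - (i.1 : ZMod p) * q.1))
  | Sum.inl (Sum.inr j), i => Sum.inr (Sum.inl (j, (i.1 : ZMod p)))
  | Sum.inr (Sum.inl l), i => Sum.inl (Sum.inl ((i.1 : ZMod p), (l.1.1 : ZMod p) * (i.1 : ZMod p) + l.2))
  | Sum.inr (Sum.inr _), i => Sum.inl (Sum.inr i)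

lemma nb_adj (w : W c p) (i : Fin c) : (base c p).Adj w (nb w i) := by
  rcases w with (q | j) | (l | u) <;> simp [nb, Inc]

lemma nb_inj [Fact p.Prime] (hcp : c ≤ p) (w : W c p) : Function.Injective (nb w) := by
  intro i j h
  rcases w with (q | k) | (l | u) <;> simp [nb] at h
  · exact h.1
  · exact cast_inj hcp h
  · exact cast_inj hcp h.1
  · exact h

/-- The vertical coordinate on the line `x = 0` blocked by a vertex. -/
def blk : W c p → ZMod p
  | Sum.inl (Sum.inl q) => q.2
  | Sum.inl (Sum.inr _) => 0
  | Sum.inr (Sum.inl l) => l.2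
  | Sum.inr (Sum.inr _) => 0

/-- Fewer than `p` vertices miss the closed neighbourhood of some point. -/
lemma exists_free_point [Fact p.Prime] {ι : Type} [Fintype ι] (hn : Fintype.card ι < p)
    (f : ι → W c p) :
    ∃ w : W c p, side w = true ∧ ∀ i, f i ≠ w ∧ ¬ (base c p).Adj (f i) w := by
  obtain ⟨y, hy⟩ : ∃ y : ZMod p, ∀ i, blk (f i) ≠ y := by
    by_contra hcon
    push Not at hcon
    have : Fintype.card (ZMod p) ≤ Fintype.card ι :=
      Fintype.card_le_of_surjective (fun i => blk (f i)) hcon
    rw [ZMod.card] at this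
    omega
  refine ⟨Sum.inl (Sum.inl (0, y)), rfl, fun i => ?_⟩
  have h := hy i
  generalize f i = z at h ⊢
  rcases z with (q | k) | (l | u)
  · refine ⟨fun e => h ?_, by simp⟩
    simp only [Sum.inl.injEq] at e
    simp [blk, e]
  · simp
  · refine ⟨by simp, fun e => h ?_⟩
    simp [Inc] at e
    simp [blk, e]
  · simp [Inc]

/-- Fewer than `c` points miss some line. -/
lemma exists_free_line [Fact p.Prime] (hcp : c ≤ p) {ι : Type} [Fintype ι]
    (hn : Fintype.card ι < c) (f : ι → W c p) :
    ∃ w : W c p, side w = false ∧ ∀ i, ¬ (base c p).Adj (f i) w := by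
  obtain ⟨s, hs⟩ : ∃ s : Fin c, ∀ i, f i ≠ Sum.inl (Sum.inr s) := by
    by_contra hcon
    push Not at hcon
    choose g hg using hcon
    have hg' : Function.Injective g := by
      intro a b hab
      have := (hg a).symm.trans ((congrArg f hab).trans (hg b))
      simpa using this
    have := Fintype.card_le_of_injective g hg'
    simp only [Fintype.card_fin] at this
    omega
  obtain ⟨b, hb⟩ : ∃ b : ZMod p, ∀ i q, f i = Sum.inl (Sum.inl q) →
      q.2 ≠ (s.1 : ZMod p) * q.1 + b := by
    by_contra hcon
    push Not at hcon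
    choose g q hg1 hg2 using hcon
    have hg' : Function.Injective g := by
      intro a b hab
      have h1 : q a = q b := by
        have := (hg1 a).symm.trans ((congrArg f hab).trans (hg1 b))
        simpa using this
      have h2 := hg2 a
      rw [h1, hg2 b] at h2
      exact (add_left_cancel h2).symm
    have := Fintype.card_le_of_injective g hg'
    rw [ZMod.card] at this
    omega
  refine ⟨Sum.inr (Sum.inl (s, b)), rfl, fun i => ?_⟩
  have h1 := hs i
  have h2 := hb i
  generalize f i = z at h1 h2 ⊢
  rcases z with (q | k) | (l | u)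
  · simpa [Inc] using h2 q rfl
  · intro e
    apply h1
    simp [Inc] at e
    rw [e]
  · simp
  · simp

/-- With fewer than `c` cops the robber escapes in the usual game. -/
lemma passive_lower [Fact p.Prime] (hcp : c ≤ p) {X : Type} (π : X → W c p)
    (hπ : Function.Surjective π) (n : ℕ) (hn : n < c) :
    ¬ CopsWin ((base c p).comap π) false n := by
  apply not_copsWin_of_inv _ _ _
    (fun f r => ∀ i, π (f i) ≠ π r ∧ ¬ (base c p).Adj (π (f i)) (π r))
  · intro f
    obtain ⟨w, _, hw⟩ := exists_free_point (c := c) (p := p) (ι := Fin n)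
      (by rw [Fintype.card_fin]; omega) (π ∘ f)
    obtain ⟨x, rfl⟩ := hπ w
    exact ⟨x, hw⟩
  · intro f r h i e
    exact (h i).1 (congrArg π e)
  · intro f f' r hinv hs
    have h1 : ∀ i, π (f' i) ≠ π r := by
      intro i e
      rcases hs i with h | ⟨_, h⟩
      · apply (hinv i).2
        rw [← e]
        exact h
      · exact (hinv i).1 (by rw [h]; exact e)
    refine ⟨fun i e => h1 i (congrArg π e), ?_⟩
    obtain ⟨k, hk⟩ : ∃ k : Fin c, ∀ i, π (f' i) ≠ nb (π r) k ∧
        ¬ (base c p).Adj (π (f' i)) (nb (π r) k) := by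
      by_contra hcon
      have hcon' : ∀ k : Fin c, ∃ i, π (f' i) = nb (π r) k ∨
          (base c p).Adj (π (f' i)) (nb (π r) k) := by
        intro k
        by_contra h
        push Not at h
        exact hcon ⟨k, h⟩
      choose g hg using hcon'
      have hginj : Function.Injective g := by
        intro k k' hkk
        have e1 := hg k
        have e2 := hg k'
        rw [← hkk] at e2
        have s1 := side_adj (nb_adj (π r) k)
        have s2 := side_adj (nb_adj (π r) k')
        rcases e1 with e1 | e1 <;> rcases e2 with e2 | e2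
        · exact nb_inj hcp (π r) (e1.symm.trans e2)
        · have := side_adj e2
          rw [e1, s1, s2] at this
          simp at this
        · have := side_adj e1
          rw [e2, s1, s2] at this
          simp at this
        · exact nb_inj hcp (π r) (base_uniq hcp (h1 _) e1 (nb_adj _ _) e2 (nb_adj _ _))
      have := Fintype.card_le_of_injective g hginj
      simp only [Fintype.card_fin] at this
      omega
    obtain ⟨y, hy⟩ := hπ (nb (π r) k)
    refine ⟨y, Or.inl ?_, fun i => ?_⟩
    · show (base c p).Adj (π r) (π y)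
      rw [hy]
      exact nb_adj _ _
    · rw [hy]
      exact hk i
  · intro r
    exact ⟨r, Or.inr ⟨rfl, rfl⟩⟩

/-- With at most `2c - 2` cops the robber escapes in the fully active game, provided every
vertex of the base graph has more twins than there are cops. -/
lemma active_lower [Fact p.Prime] (hcp : c ≤ p) (hc : 0 < c) {X : Type} (π : X → W c p) (n : ℕ)
    (hn : n + 2 ≤ 2 * c)
    (hfib : ∀ (f : Fin n → X) (w : W c p), ∃ x, π x = w ∧ ∀ i, f i ≠ x) :
    ¬ CopsWin ((base c p).comap π) true n := by
  classical
  apply not_copsWin_of_inv _ _ _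
    (fun f r => (∀ i, f i ≠ r) ∧
      Fintype.card {i : Fin n // side (π (f i)) ≠ side (π r)} < c ∧
      ∀ i, ¬ (base c p).Adj (π (f i)) (π r))
  · intro f
    have hsum : Fintype.card {i : Fin n // side (π (f i)) ≠ true} +
        Fintype.card {i : Fin n // side (π (f i)) ≠ false} = n := by
      have h1 : Fintype.card {i : Fin n // side (π (f i)) ≠ false} =
          Fintype.card {i : Fin n // ¬ (side (π (f i)) ≠ true)} := by
        apply Fintype.card_congr
        apply Equiv.subtypeEquivRight
        intro i
        cases side (π (f i)) <;> simp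
      rw [h1]
      have := Fintype.card_subtype_compl (fun i : Fin n => side (π (f i)) ≠ true)
      have h2 := Fintype.card_subtype_le (fun i : Fin n => side (π (f i)) ≠ true)
      rw [Fintype.card_fin] at this h2
      omega
    by_cases hB : Fintype.card {i : Fin n // side (π (f i)) ≠ true} < c
    · obtain ⟨w, hw1, hw2⟩ := exists_free_point (c := c) (p := p)
        (ι := {i : Fin n // side (π (f i)) ≠ true}) (by omega) (fun i => π (f i.1))
      obtain ⟨x, rfl, hx⟩ := hfib f w
      refine ⟨x, hx, by rw [hw1]; exact hB, fun i hi => ?_⟩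
      have := side_adj hi
      refine (hw2 ⟨i, ?_⟩).2 hi
      rw [hw1] at this
      intro h
      rw [h] at this
      simp at this
    · obtain ⟨w, hw1, hw2⟩ := exists_free_line (c := c) (p := p) hcp
        (ι := {i : Fin n // side (π (f i)) ≠ false}) (by omega) (fun i => π (f i.1))
      obtain ⟨x, rfl, hx⟩ := hfib f w
      refine ⟨x, hx, by rw [hw1]; omega, fun i hi => ?_⟩
      have := side_adj hi
      refine (hw2 ⟨i, ?_⟩) hi
      rw [hw1] at this
      intro h
      rw [h] at this
      simp at this
  · intro f r h i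
    exact h.1 i
  · rintro f f' r ⟨hne, hcard, hadj⟩ hs
    have hs' : ∀ i, (base c p).Adj (π (f i)) (π (f' i)) := by
      intro i
      rcases hs i with h | h
      · exact h
      · simp at h
    have h1 : ∀ i, π (f' i) ≠ π r := by
      intro i e
      apply hadj i
      rw [← e]
      exact hs' i
    refine ⟨fun i e => h1 i (congrArg π e), ?_⟩
    obtain ⟨k, hk⟩ : ∃ k : Fin c, ∀ i, ¬ (base c p).Adj (π (f' i)) (nb (π r) k) := by
      by_contra hcon
      push Not at hcon
      choose g hg using hcon
      have hgs : ∀ k, side (π (f (g k))) ≠ side (π r) := by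
        intro k h
        have s1 := side_adj (hs' (g k))
        have s2 := side_adj (hg k)
        have s3 := side_adj (nb_adj (π r) k)
        rw [s3, s1, h] at s2
        simp at s2
      have hginj : Function.Injective
          (fun k => (⟨g k, hgs k⟩ : {i : Fin n // side (π (f i)) ≠ side (π r)})) := by
        intro k k' hkk
        have e : g k = g k' := by simpa using hkk
        have e2 := hg k'
        rw [← e] at e2
        exact nb_inj hcp (π r) (base_uniq hcp (h1 _) (hg k) (nb_adj _ _) e2 (nb_adj _ _))
      have := Fintype.card_le_of_injective _ hginj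
      simp only [Fintype.card_fin] at this
      omega
    obtain ⟨y, hy, hy2⟩ := hfib f' (nb (π r) k)
    refine ⟨y, Or.inl ?_, hy2, ?_, fun i => ?_⟩
    · show (base c p).Adj (π r) (π y)
      rw [hy]
      exact nb_adj _ _
    · refine lt_of_le_of_lt (le_of_eq ?_) hcard
      apply Fintype.card_congr
      apply Equiv.subtypeEquivRight
      intro i
      rw [hy, side_adj (nb_adj (π r) k), side_adj (hs' i)]
      simp
    · rw [hy]
      exact hk i
  · intro r
    obtain ⟨y, hy, _⟩ := hfib (fun _ => r) (nb (π r) ⟨0, hc⟩)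
    refine ⟨y, Or.inl ?_⟩
    show (base c p).Adj (π r) (π y)
    rw [hy]
    exact nb_adj _ _

/-! ### Winning with `c` cops -/

lemma winIn_mono (G : SimpleGraph V) (a : Bool) (n : ℕ) (k : ℕ) :
    ∀ c r, WinIn G a n k c r → WinIn G a n (k + 1) c r := by
  induction k with
  | zero => intro c r h; exact Or.inl h
  | succ k ih =>
    rintro c r (h | ⟨c', h1, h2⟩)
    · exact Or.inl h
    · refine Or.inr ⟨c', h1, ?_⟩
      rcases h2 with h2 | h2
      · exact Or.inl h2
      · exact Or.inr fun r' hr' => ih _ _ (h2 r' hr')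

open Classical in
lemma winIn_adj (G : SimpleGraph V) (a : Bool) (n : ℕ) (hdeg : ∀ x, ∃ y, G.Adj x y)
    (f : Fin n → V) (r : V) (i : Fin n) (h : G.Adj (f i) r) : WinIn G a n 1 f r := by
  refine Or.inr ⟨fun j => if j = i then r else (hdeg (f j)).choose, fun j => ?_, Or.inl ⟨i, ?_⟩⟩
  · left
    show G.Adj (f j) (if j = i then r else (hdeg (f j)).choose)
    split_ifs with hj
    · rw [hj]; exact h
    · exact (hdeg (f j)).choose_spec
  · simp

/-- In the usual game, a cop on a twin of the robber's vertex and a second cop at distance two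
win. -/
lemma winIn_twin {X W : Type} (H : SimpleGraph W) (π : X → W) (n : ℕ)
    (hdeg : ∀ x, ∃ y, (H.comap π).Adj x y) (f : Fin n → X) (r z : X) (i j : Fin n) (hij : i ≠ j)
    (hi : π (f i) = π r) (hj : H.Adj (π (f j)) (π z)) (hz : H.Adj (π z) (π r)) :
    WinIn (H.comap π) false n 2 f r := by
  classical
  refine Or.inr ⟨Function.update f j z, fun k => ?_, Or.inr fun r' hr' => ?_⟩
  · by_cases hk : k = j
    · subst hk
      left
      simpa using hj
    · right
      simp [hk]
  · rcases hr' with h | ⟨_, h⟩
    · apply winIn_adj _ _ _ hdeg _ _ i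
      show H.Adj (π (Function.update f j z i)) (π r')
      rw [Function.update_of_ne hij, hi]
      exact h
    · apply winIn_adj _ _ _ hdeg _ _ j
      show H.Adj (π (Function.update f j z j)) (π r')
      rw [Function.update_self, ← h]
      exact hz

lemma adj_point (q : ZMod p × ZMod p) (w : W c p) (h : (base c p).Adj (Sum.inl (Sum.inl q)) w) :
    ∃ i, w = nb (Sum.inl (Sum.inl q)) i := by
  rcases w with P | ((⟨i, b⟩) | l)
  · simp at h
  · refine ⟨i, ?_⟩
    simp only [base_lr, Inc] at h
    simp [nb, h]
  · simp [Inc] at h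

lemma deg_comap (hc : 0 < c) {X : Type} (π : X → W c p) (s : W c p → X)
    (hs : ∀ w, π (s w) = w) (x : X) : ∃ y, ((base c p).comap π).Adj x y := by
  refine ⟨s (nb (π x) ⟨0, hc⟩), ?_⟩
  show (base c p).Adj (π x) (π (s _))
  rw [hs]
  exact nb_adj _ _

/-- `c ≥ 2` cops win the usual game. -/
lemma passive_upper (hc : 2 ≤ c) {X : Type} (π : X → W c p) (s : W c p → X)
    (hs : ∀ w, π (s w) = w) : CopsWin ((base c p).comap π) false c := by
  classical
  have hdeg := deg_comap (show 0 < c by omega) π s hs
  have hother : ∀ i : Fin c, ∃ j : Fin c, i ≠ j := by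
    intro i
    by_cases hi : i = ⟨0, by omega⟩
    · exact ⟨⟨1, by omega⟩, by rw [hi]; simp⟩
    · exact ⟨⟨0, by omega⟩, hi⟩
  apply copsWin_of_winIn _ _ _ hdeg 3 (fun i => s (Sum.inl (Sum.inr i)))
  intro r
  rcases hw : π r with (q | j) | (⟨i, b⟩ | l)
  · -- the robber is at an affine point
    refine Or.inr ⟨fun i => s (nb (Sum.inl (Sum.inl q)) i), fun i => ?_, Or.inr fun r' hr' => ?_⟩
    · left
      show (base c p).Adj (π (s _)) (π (s _))
      rw [hs, hs]
      simp [nb, Inc]
    · rcases hr' with h | ⟨_, h⟩
      · have h' : (base c p).Adj (Sum.inl (Sum.inl q)) (π r') := by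
          rw [← hw]; exact h
        obtain ⟨i, hi⟩ := adj_point q _ h'
        obtain ⟨j, hij⟩ := hother i
        apply winIn_twin (base c p) π c hdeg _ r' r i j hij
        · rw [hs, hi]
        · rw [hs, hw]
          exact (nb_adj _ _).symm
        · exact h
      · apply winIn_mono
        apply winIn_adj _ _ _ hdeg _ _ ⟨0, by omega⟩
        show (base c p).Adj (π (s _)) (π r')
        rw [hs, ← h, hw]
        exact (nb_adj _ _).symm
  · -- the robber is at a point at infinity
    obtain ⟨j', hj'⟩ := hother j
    apply winIn_mono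
    apply winIn_twin (base c p) π c hdeg _ r (s (Sum.inr (Sum.inr ()))) j j' hj'
    · rw [hs, hw]
    · rw [hs, hs]
      simp [Inc]
    · rw [hs, hw]
      simp [Inc]
  · apply winIn_mono
    apply winIn_mono
    apply winIn_adj _ _ _ hdeg _ _ i
    show (base c p).Adj (π (s _)) (π r)
    rw [hs, hw]
    simp [Inc]
  · apply winIn_mono
    apply winIn_mono
    apply winIn_adj _ _ _ hdeg _ _ ⟨0, by omega⟩
    show (base c p).Adj (π (s _)) (π r)
    rw [hs, hw]
    simp [Inc]

/-- `c` cops win the fully active game on the graph without twins. -/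
lemma active_upper (hc : 0 < c) {X : Type} (π : X → W c p) (s : W c p → X)
    (hs : ∀ w, π (s w) = w) (hs' : ∀ x, s (π x) = x) :
    CopsWin ((base c p).comap π) true c := by
  classical
  have hdeg := deg_comap hc π s hs
  apply copsWin_of_winIn _ _ _ hdeg 1 (fun i => s (Sum.inl (Sum.inr i)))
  intro r
  rcases hw : π r with (q | j) | (⟨i, b⟩ | l)
  · refine Or.inr ⟨fun i => s (nb (Sum.inl (Sum.inl q)) i), fun i => ?_, Or.inr fun r' hr' => ?_⟩
    · left
      show (base c p).Adj (π (s _)) (π (s _))
      rw [hs, hs]
      simp [nb, Inc]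
    · rcases hr' with h | ⟨h, _⟩
      · have h' : (base c p).Adj (Sum.inl (Sum.inl q)) (π r') := by
          rw [← hw]; exact h
        obtain ⟨i, hi⟩ := adj_point q _ h'
        refine ⟨i, ?_⟩
        show s _ = r'
        rw [← hi, hs']
      · simp at h
  · refine Or.inl ⟨j, ?_⟩
    show s _ = r
    rw [← hw, hs']
  · apply winIn_adj _ _ _ hdeg _ _ i
    show (base c p).Adj (π (s _)) (π r)
    rw [hs, hw]
    simp [Inc]
  · apply winIn_adj _ _ _ hdeg _ _ ⟨0, hc⟩
    show (base c p).Adj (π (s _)) (π r)
    rw [hs, hw]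
    simp [Inc]

lemma conn (hc : 0 < c) {X : Type} (π : X → W c p) (s : W c p → X)
    (hs : ∀ w, π (s w) = w) : ((base c p).comap π).Connected := by
  have hadj : ∀ x y, (base c p).Adj (π x) (π y) → ((base c p).comap π).Reachable x y := by
    intro x y h
    exact SimpleGraph.Adj.reachable (G := (base c p).comap π) h
  have h1 : ∀ (x : X) (j : Fin c), π x = Sum.inl (Sum.inr j) →
      ((base c p).comap π).Reachable x (s (Sum.inr (Sum.inr ()))) := by
    intro x j hx
    apply hadj
    rw [hs, hx]
    simp [Inc]
  have h2 : ∀ (x : X) (l : Ln c p), π x = Sum.inr l →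
      ((base c p).comap π).Reachable x (s (Sum.inr (Sum.inr ()))) := by
    intro x l hx
    rcases l with ⟨i, b⟩ | l
    · refine (hadj x (s (Sum.inl (Sum.inr i))) ?_).trans (h1 _ i (hs _))
      rw [hs, hx]
      simp [Inc]
    · refine (hadj x (s (Sum.inl (Sum.inr ⟨0, hc⟩))) ?_).trans (h1 _ ⟨0, hc⟩ (hs _))
      rw [hs, hx]
      simp [Inc]
  have h3 : ∀ x : X, ((base c p).comap π).Reachable x (s (Sum.inr (Sum.inr ()))) := by
    intro x
    rcases hw : π x with (q | j) | l
    · refine (hadj x (s (nb (Sum.inl (Sum.inl q)) ⟨0, hc⟩)) ?_).trans (h2 _ _ (hs _))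
      rw [hs, hw]
      exact nb_adj _ _
    · exact h1 x j hw
    · exact h2 x l hw
  have : Nonempty X := ⟨s (Sum.inr (Sum.inr ()))⟩
  exact SimpleGraph.Connected.mk fun x y => (h3 x).trans (h3 y).symm

/-! ### Adding twins one by one -/

/-- The projection of the graph with twins. -/
def proj (g : ℕ → W c p) (j : ℕ) : W c p ⊕ Fin j → W c p :=
  Sum.elim id (fun i => g i)

/-- The graph with twins `g 0, ..., g (j-1)` added. -/
def gr (g : ℕ → W c p) (j : ℕ) : SimpleGraph (W c p ⊕ Fin j) := (base c p).comap (proj g j)

lemma proj_inl (g : ℕ → W c p) (j : ℕ) (w : W c p) : proj g j (Sum.inl w) = w := rfl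

lemma gr_zero (hc : 0 < c) (g : ℕ → W c p) : CopsWin (gr g 0) true c := by
  apply active_upper hc (proj g 0) Sum.inl (proj_inl g 0)
  rintro (w | i)
  · rfl
  · exact i.elim0

lemma gr_succ (hc : 0 < c) (g : ℕ → W c p) (j n : ℕ) (h : CopsWin (gr g j) true n) :
    CopsWin (gr g (j + 1)) true (n + 1) := by
  refine guard (base c p) (proj g j) (proj g (j + 1)) (Sum.map id Fin.castSucc)
    (Sum.elim Sum.inl (fun i => Fin.lastCases (Sum.inl (g j)) (fun i => Sum.inr i) i))
    (Sum.inr (Fin.last j)) (Sum.inl (nb (g j) ⟨0, hc⟩)) ?_ ?_ ?_ ?_ n h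
  · rintro (w | i) <;> rfl
  · rintro (w | i)
    · rfl
    · refine Fin.lastCases ?_ (fun i => ?_) i
      · simp [proj]
      · simp [proj]
  · rintro (w | i) hx
    · rfl
    · revert hx
      refine Fin.lastCases ?_ (fun i => ?_) i
      · intro h
        exact absurd rfl h
      · intro _
        simp
  · exact (nb_adj _ _).symm

lemma exists_win (hc : 0 < c) (g : ℕ → W c p) (j : ℕ) : ∃ n, CopsWin (gr g j) true n := by
  induction j with
  | zero => exact ⟨c, gr_zero hc g⟩
  | succ j ih =>
    obtain ⟨n, hn⟩ := ih
    exact ⟨n + 1, gr_succ hc g j n hn⟩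

lemma acop_zero (hc : 0 < c) (g : ℕ → W c p) : acop (gr g 0) ≤ c :=
  Nat.sInf_le (gr_zero hc g)

lemma acop_succ (hc : 0 < c) (g : ℕ → W c p) (j : ℕ) :
    acop (gr g (j + 1)) ≤ acop (gr g j) + 1 :=
  Nat.sInf_le (gr_succ hc g j _ (Nat.sInf_mem (s := {n | CopsWin (gr g j) true n})
    (exists_win hc g j)))

lemma cop_gr [Fact p.Prime] (hcp : c ≤ p) (hc : 2 ≤ c) (g : ℕ → W c p) (j : ℕ) :
    cop (gr g j) = c := by
  have h1 : CopsWin (gr g j) false c := passive_upper hc (proj g j) Sum.inl (proj_inl g j)
  apply le_antisymm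
  · exact Nat.sInf_le h1
  · by_contra hlt
    push Not at hlt
    exact passive_lower hcp (proj g j) (fun w => ⟨Sum.inl w, rfl⟩) _ hlt
      (Nat.sInf_mem (s := {n | CopsWin (gr g j) false n}) ⟨c, h1⟩)

/-- A discrete intermediate value theorem. -/
lemma ivt (a : ℕ → ℕ) (M x : ℕ) (h0 : a 0 ≤ x) (hM : x ≤ a M)
    (hs : ∀ j, a (j + 1) ≤ a j + 1) : ∃ j, a j = x := by
  classical
  have hex : ∃ j, x ≤ a j := ⟨M, hM⟩
  refine ⟨Nat.find hex, le_antisymm ?_ (Nat.find_spec hex)⟩
  rcases hj : Nat.find hex with _ | j
  · exact h0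
  · have h1 : ¬ x ≤ a j := Nat.find_min hex (by omega)
    have := hs j
    omega

lemma exists_seq [Fact p.Prime] (c : ℕ) (hcp : c ≤ p) (hc : 2 ≤ c) :
    ∃ (g : ℕ → W c p) (M : ℕ), 2 * c ≤ acop (gr g M) + 1 := by
  classical
  set M := Fintype.card (W c p × Fin (2 * c)) with hM
  let e : Fin M ≃ W c p × Fin (2 * c) := (Fintype.equivFin _).symm
  let g : ℕ → W c p := fun i => if h : i < M then (e ⟨i, h⟩).1 else Sum.inr (Sum.inr ())
  refine ⟨g, M, ?_⟩
  by_contra hlt
  push Not at hlt
  have hwin := Nat.sInf_mem (s := {n | CopsWin (gr g M) true n}) (exists_win (by omega) g M)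
  have hn : acop (gr g M) + 2 ≤ 2 * c := by omega
  refine active_lower hcp (by omega) (proj g M) (acop (gr g M)) hn ?_ hwin
  intro f w
  by_contra hcon
  push Not at hcon
  have h1 : ∀ t : Fin (2 * c), ∃ i, f i = Sum.inr (e.symm (w, t)) := by
    intro t
    apply hcon
    simp [proj, g]
  choose F hF using h1
  have hinj : Function.Injective F := by
    intro t t' htt
    have := (hF t).symm.trans ((congrArg f htt).trans (hF t'))
    simpa using this
  have := Fintype.card_le_of_injective F hinj
  simp only [Fintype.card_fin] at this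
  omega

end base

/-- **Every additive gap is realised.** For all positive integers `k < c` there is a finite
connected graph `G` with at least one edge such that `cop G = c` and `acop G = c + k`. -/
theorem result : ∀ c k : ℕ, 0 < k → k < c →
    ∃ (V : Type) (_ : Fintype V) (G : SimpleGraph V), G.Connected ∧ (∃ u v, G.Adj u v) ∧
      cop G = c ∧ acop G = c + k := by
  intro c k hk hkc
  obtain ⟨p, hcp, hp⟩ := Nat.exists_infinite_primes c
  have : Fact p.Prime := ⟨hp⟩
  have hc : 2 ≤ c := by omega
  obtain ⟨g, M, hM⟩ := exists_seq (p := p) c hcp hc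
  obtain ⟨j, hj⟩ := ivt (fun j => acop (gr g j)) M (c + k)
    ((acop_zero (by omega) g).trans (by omega)) (by show c + k ≤ acop (gr g M); omega)
    (acop_succ (by omega) g)
  refine ⟨W c p ⊕ Fin j, inferInstance, gr g j, ?_, ?_, cop_gr hcp hc g j, hj⟩
  · exact conn (by omega) (proj g j) Sum.inl (proj_inl g j)
  · obtain ⟨y, hy⟩ := deg_comap (show 0 < c by omega) (proj g j) Sum.inl (proj_inl g j)
      (Sum.inl (Sum.inr (Sum.inr ())))
    exact ⟨_, y, hy⟩

end Pool.Agent.Results.MP_671a46_co.AllGaps
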